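import Pool.Agent.Run7.h243.Loc4

set_option maxRecDepth 100000

/-! A table of a local rotation system. -/

namespace Run7.h243.Tab

open Run7.h243

def t3p0c1 : Dat where
  w := 1
  W := 36
  P := 3
  d := 14
  B := 8
  h0 := 63
  c0 := 1
  T := 0x14b311ac4840541c4352cc5435840812710d6a291a6604e04a06252cc46b1210150710d4b3150d6102049c435a8a469981381281894b311ac4806541c4152cc5435840892038d6a291a6600e84846252cc46b122181013954b3150d60469380445a8a9689841a0073054b311ac104e848c05519251b5845a0270098a2a5026ace30980441d496b06b088a6011873250d1856a0104552da6191814890701506634625914901ca14aca8209ac38c01328e86ad43130c9200a13952b434cc0a883008ea3356343125010413ad2d29981029041892b6a0a62300a09c43399ac2292b080a810d276188a685602a062498ac691610290710d0a315646b02049c43398a45b581501281892b3114c6840541c435a0c5535840812710d6a291a6604e04a06252cc46b1210150710d4b3150d6102049c435a8a469981381281894b311ac4840541c4352cc5435840812710d6a291a6604e04a062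
  TI := 0x128634e312c8a004c541d8d1a44b51801291276b0622a16a080c44a18d38c4b22801315076346912d46004a449dac188a85a82031128634e312c8a2840641d8d1a42b51804289276b0642a16a080464a18d38c2b028a611107634891ad40284c249dac51041598a800d28634642ac0a11cc141cad5904c51920184ed3314928960220614a0cb53582180e42850d2914962c02384c359d8d28c4a021243054b3948d130264a003399806a8a15a48810d665248c6942341c02419445a5a760c40285464b0a76ac824040351d8458da84882031566611aa12127004655a8c8389ac1a401290eb2a1a262869080c44a8e468c4c5a001314e64b06d12d48004a441d25189ac5a820310e8625a312c8a004c541da91b04b51801291276b0622a16a080c44a18d38c4b22801315076346912d46004a449dac188a85a82031128634e312c8a004c541d8d1a44b51801291276b0622a16a080c4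
  CY := 0x145000000000000000000000000000000000000000000000000000000000011044000000000000000000000404000000000000000000000000000000000000000000000000000000000000000000000000000000000
  IX := 0x14322d22415ac09cc02296510d2c33428380eb430c250d2d2848050c8b489056b0273008a594434b0cd0a0e03ad0c309434b4a1200ab6188a1b507488202254510d0b3302d380a93288c434eb18440590ac50d260b447400895144342cc13b58051d68490c260da5080ca59ca91302820da038d485984449581680a611d0920461100603a48532143605626814b11d0960c26694805212b110ec094666808940d853a84b69820518e158925431a3201645250560c473342042ca431d2a60c4168148324ac59c8368820218e3408a3488210016951987221a508c4051d2661568134241816940d82510ed304a0095440092658c28381651984c510ed0a5001954c488865b5013812322d42415ac09cc052163124ec23426280eb430c250d2d2848050c8b489056b0273008a594434b0cd0a0e03ad0c309434b4a12014322d22415ac09cc02296510d2c33428380eb430c250d2d28480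
  RP := 0x2000000000000000000000000000000000000000000020000000000000000001200000000000000000000000000000000000000000000000000000000
  PA := 0x200000000000000000000000000000000000000000000000004000070000800003000040000a0000b0000c0000d0000700008000090000a0000a0000b
  RS := 0x1000000000000000000020000000003000000000500000000060000000006000000000700000000080000000009000000000b000000000c000000000d000000000e000000000f0000000010
  A := 0xa279a58e285f79d6da658
  F := 0x0
  NG := 0x110c8531d0952d8d
  hc := ![(11, 0), (15, 0), (24, 0)]
  ta := ![(15, 0, 6), (24, 0, 1), (11, 0, 13)]
  tb := ![(14, 0, 4), (17, 0, 5), (19, 0, 10)]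
  big := []

theorem t3p0c1_ok : t3p0c1.Ok where
  hP := by decide +kernel
  hw := by decide +kernel
  hd := by decide +kernel
  hd2 := by decide +kernel
  hB := by decide +kernel
  hBW := by decide +kernel
  hh0 := by decide +kernel
  h32 := by decide +kernel
  k1 := by decide +kernel
  k2 := by decide +kernel
  k3 := by decide +kernel
  k4 := by decide +kernel
  hv := by decide +kernel
  hdist := by decide +kernel
  va := by decide +kernel
  vb := by decide +kernel
  na := by decide +kernel
  nb := by decide +kernel
  lb := by decide +kernel
  pth := by decide +kernel
  ab := by decide +kernel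
  vbig := by decide +kernel
  abig := by decide +kernel

theorem t3p0c1_off : t3p0c1.hasOff (Dat.offO 4) := by decide +kernel

theorem t3p0c1_rel : t3p0c1.relO 4 0 := by decide +kernel

end Run7.h243.Tab
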