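import Pool.Agent.Run7.h243.Loc4

set_option maxRecDepth 100000

/-! A table of a local rotation system. -/

namespace Run7.h243.Tab

open Run7.h243

def t3p1c1 : Dat where
  w := 1
  W := 37
  P := 3
  d := 14
  B := 8
  h0 := 57
  c0 := 1
  T := 0x42ca46a98048c2730928634a61056a200e362cc81b521514071110b291aa6012309cc24a18d298405a8833858b3206d48145110e142ca46a98148c0638928634a61856a21c0262cc8235225002728d0b299aa60523390024a18d28d6a00827311863a16d1002a49065618ab229a04844838d8b2906268549400e64ad482342c18047314e82b16d105402246652d256882c22007198e86116d0a862480c55a8ed2b04821920185816a4e22a96820c0662ce56a8281a4403110d614e91046a0116652da92b022020871994d4946c08168398444b58622860588a8385066a4ac5a803090e2414e9191ac5a820118ed6156a08069220c242d4d23041498a038d2d32d4c2846801c445b5282918050c27309862b56910548200e3620c91a9a159407111682914d6012309cc243589298415a88038d8b3206d4854501c4442ca46a98048c2730928634a61056a200e362cc81b521514071110b291aa6012309cc2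
  TI := 0x49d882b4415a8801994b291ac0a12301cc2435853a84b2012130d27620ad1056a2006652ca46b02848c470190d614ea0ac8248c0649d882b4225a88030d4b291ac12123380c1435853a84b0a40619127620ad1a962200c152ce66b041481041950d4906a5b00209ca63b5482882c5a403218ed614830816a4a0c24198b6a841024a33910a4944c6816309cc44998d590405142838d0b4986c6840a290e2521ac19964494270096d29944480e3121814b58821961500a33898b0910d4814229cc35a18d5104048c26395882b56418940484e662ca86882a1a4e4019683994d0b12220065398a453560621211898b4a08268543280e65218b2b4241a40730988525a412ce0284c361da55a8414a0801994d495040b16301cc23b4a85304b2012130d076a4ac1056a2006662ca45342848c073090d614ea12c80484c349d882b4415a8801994b291ac0a12301cc2435853a84b2012130d27620ad1056a20066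
  CY := 0x5554410000000000000000000000554540500000000000000000000000000000000000000000000000000000000551000000000000000000000000000000000000000000000000000000000000000000000000000000000
  IX := 0x38c893204d2a9616008838ca9628c20b560298e361168105aa480e3224c8134aa585803ad464304d494830814b62069134e621420494cb428823b1a1180ca494eb13104185a031d04615691b42a1012532d0a230e2185a05948a61869684e24016c2a48a3342819c405b0a438d4d32022480853214c184e95b44059d09628860b443280e511026404641804028866225613a1aa600e522c664282c135205216919d862144d080e830863204a208120190aa124c85858d380a41ace64058a6a4405212b61c61698a22008339502534c14b160398ac42c4d2246a080e932d882a9a2184803088951ca11a16d6014940ce25b4862858020443180e51102830083398a25a1816a92020ca83244d3a9616010929c83628c20b5604246b628e4105a6280a332504134ea5858041cc32258a2882d580a638d845a0416a92038c893204d2a9616008838ca9628c20b560298e361168105aa480e3224c8134aa58580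
  RP := 0x40000000000000000000020000000000000000000000000000000000000000001000000000000000000000000000000000000000000000000000000000
  PA := 0x200000000000000000000000000000600005000070000200009000040000a0000b0000c0000d0000700008000090000a0000a
  RS := 0x20000000004000000000400000000060000000006000000000700000000080000000009000000000b000000000c000000000d000000000e000000000f
  A := 0xa279a58e285f79d6da658
  F := 0x0
  NG := 0x110c8531d0952d8d
  hc := ![(20, 0), (24, 0), (11, 0)]
  ta := ![(24, 0, 9), (11, 0, 12), (20, 0, 1)]
  tb := ![(27, 0, 1), (18, 0, 11), (13, 0, 5)]
  big := []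

theorem t3p1c1_ok : t3p1c1.Ok where
  hP := by decide +kernel
  hw := by decide +kernel
  hd := by decide +kernel
  hd2 := by decide +kernel
  hB := by decide +kernel
  hBW := by decide +kernel
  hh0 := by decide +kernel
  h32 := by decide +kernel
  k1 := by decide +kernel
  k2 := by decide +kernel
  k3 := by decide +kernel
  k4 := by decide +kernel
  hv := by decide +kernel
  hdist := by decide +kernel
  va := by decide +kernel
  vb := by decide +kernel
  na := by decide +kernel
  nb := by decide +kernel
  lb := by decide +kernel
  pth := by decide +kernel
  ab := by decide +kernel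
  vbig := by decide +kernel
  abig := by decide +kernel

theorem t3p1c1_off : t3p1c1.hasOff (Dat.offO 4) := by decide +kernel

theorem t3p1c1_rel : t3p1c1.relO 4 1 := by decide +kernel

end Run7.h243.Tab
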